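import Pool.Agent.helper53.EXT.SpecB

set_option autoImplicit false

open Finset

namespace Pool.Agent.EXT

open Pool.Agent.EXC

theorem B0R : B0R_stmt := by
  unfold B0R_stmt LR SR
  decide +kernel

end Pool.Agent.EXT
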