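import Pool.Agent.helper17.EXT.SpecJ

/-!
# Project EXT, row JXT (helper79)
-/

set_option autoImplicit false

open Finset

namespace Pool.Agent.EXT

open Pool.Agent.EXC

theorem JXT_char (K : Type) [Field K] (h2 : (2 : K) = 0) : CharP K 2 := by
  rw [CharP.charP_iff_prime_eq_zero Nat.prime_two]
  exact_mod_cast h2

theorem JXT_eta : SR eta := by
  unfold SR
  refine ⟨by decide +kernel, by decide +kernel⟩

theorem JXT_th : LR th ∧ Pos th ∧ LR (-th) := by
  unfold LR Pos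
  refine ⟨⟨by decide +kernel, by decide +kernel⟩, by decide +kernel, by decide +kernel, by decide +kernel⟩

theorem JXT_IsS {K : Type} [Field K] {γ : Fin 6 → ℤ} {t : K} {g g' : Lm C6 K ≃ₗ[K] Lm C6 K}
    (h : IsS (RingEquiv.refl K) γ t g) (h' : IsS (RingEquiv.refl K) γ t g') : ∀ v, g v = g' v := fun v => by
  rw [h v, h' v]

theorem JXT (hSGR : SGR_stmt) (hESF : ESF_stmt) (hGFX : GFX_stmt) (hSYT : SYT_stmt) (hJCX : JCX_stmt) (hJQF : JQF_stmt)
    (hJSH : JSH_stmt) : JXT_stmt := by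
  classical
  intro K _ _ h2 x hxx hSw P hP2 hU hxP
  haveI hch := JXT_char K h2
  have hτ : ∀ c, (RingEquiv.refl K) ((RingEquiv.refl K) c) = c := fun c => rfl
  have hτ1 : ∀ c, (RingEquiv.refl K) c = c := fun c => rfl
  obtain ⟨hLth, hPth, hLm⟩ := JXT_th
  obtain ⟨g1, g2, g3, g4, g5, g6⟩ := hSGR K (RingEquiv.refl K) hτ
  have hE := (hESF K (RingEquiv.refl K) hτ).1 th hLth
  obtain ⟨hEx, hne, hsi, heG, hec, hX1, hX2, hX3⟩ := (hESF K (RingEquiv.refl K) hτ).2 _ hE
  have hEm := (hESF K (RingEquiv.refl K) hτ).1 (-th) hLm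
  have hsim := ((hESF K (RingEquiv.refl K) hτ).2 _ hEm).2.2.1
  obtain ⟨G1, G2⟩ := hGFX K (RingEquiv.refl K) hτ
  obtain ⟨k1, k2, k3, k4, k5⟩ := G2 _ hE
  have hone : (1 : Lm C6 K ≃ₗ[K] Lm C6 K) ∈ GS (RingEquiv.refl K) := one_mem _
  obtain ⟨j1, j2, -⟩ := hJSH K h2 1 hone eta JXT_eta
  have hxx' : ∀ f, x (x f) = f := fun f => by
    have := congrArg (fun y : MulAut (GF (RingEquiv.refl K)) => y f) hxx
    simpa using this
  -- `P` fixes `E th`
  have hPfix : ∀ p ∈ P, ∀ v : LT (RingEquiv.refl K), (v : Lm C6 K) = E C6 th → (p : Equiv.Perm (LT (RingEquiv.refl K))) v = v :=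
    hSYT K (RingEquiv.refl K) hτ 2 Nat.prime_two hch P hP2 fun f hf => hU f hf
  -- equality in `GF` from equality on vectors
  have hext : ∀ f f' : GF (RingEquiv.refl K), (∀ v : LT (RingEquiv.refl K), (((f : Equiv.Perm (LT (RingEquiv.refl K))) v : LT (RingEquiv.refl K)) : Lm C6 K) =
      ((f' : Equiv.Perm (LT (RingEquiv.refl K))) v : LT (RingEquiv.refl K))) → f = f' := fun f f' h =>
    Subtype.ext (Equiv.ext fun v => Subtype.ext (h v))
  let vth : LT (RingEquiv.refl K) := ⟨E C6 th, hsi⟩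
  let vm : LT (RingEquiv.refl K) := ⟨E C6 (-th), hsim⟩
  -- Claim A
  have claimA : ∀ f : GF (RingEquiv.refl K), InX (RingEquiv.refl K) (E C6 th) (f : Equiv.Perm (LT (RingEquiv.refl K))) →
      InH 1 eta ((x f : GF (RingEquiv.refl K)) : Equiv.Perm (LT (RingEquiv.refl K))) := by
    intro f hf
    obtain ⟨t, -, hft⟩ := hf
    have hcomm : ∀ p ∈ P, p * f = f * p := by
      intro p hp
      obtain ⟨k, hk, hkv⟩ := p.2
      have e1 : k (E C6 th) = (E C6 th : Lm C6 K) := by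
        have a := hkv vth
        have b := hPfix p hp vth rfl
        rw [b] at a
        exact a.symm
      have e2 := k5 p p.2 k hk hkv t f hft
      rw [e1] at e2
      have e3 : p * f * p⁻¹ = f := by
        refine hext _ _ fun v => ?_
        rw [hft v]
        exact e2 v
      exact mul_inv_eq_iff_eq_mul.1 e3
    have hxcomm : ∀ p ∈ P, p * x f = x f * p := by
      intro p hp
      have a := hcomm (x p) (hxP p hp)
      have b := congrArg x a
      rw [map_mul, map_mul, hxx'] at b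
      exact b
    obtain ⟨g, hg, hgv⟩ := (x f).2
    have hgU : ∀ u ∈ GS (RingEquiv.refl K), u ∈ UG C6 K → ∀ v ∈ LT (RingEquiv.refl K), g (u v) = u (g v) := by
      intro u hu huU v hv
      obtain ⟨fu, hfu, hfuv⟩ := G1 u hu
      have hp : (⟨fu, hfu⟩ : GF (RingEquiv.refl K)) ∈ P := hU _ ⟨u, hu, huU, hfuv⟩
      have a := hxcomm _ hp
      have b := congrArg (fun y : GF (RingEquiv.refl K) => (((y : Equiv.Perm (LT (RingEquiv.refl K))) ⟨v, hv⟩ : LT (RingEquiv.refl K)) : Lm C6 K)) a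
      have c1 : ((((⟨fu, hfu⟩ : GF (RingEquiv.refl K)) * x f : GF (RingEquiv.refl K)) : Equiv.Perm (LT (RingEquiv.refl K))) ⟨v, hv⟩ : Lm C6 K) =
          u (g v) := by
        change ((fu (((x f : GF (RingEquiv.refl K)) : Equiv.Perm (LT (RingEquiv.refl K))) ⟨v, hv⟩) : LT (RingEquiv.refl K)) : Lm C6 K) = _
        rw [hfuv, hgv]
      have c2 : (((x f * (⟨fu, hfu⟩ : GF (RingEquiv.refl K)) : GF (RingEquiv.refl K)) : Equiv.Perm (LT (RingEquiv.refl K))) ⟨v, hv⟩ : Lm C6 K) =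
          g (u v) := by
        change (((x f : GF (RingEquiv.refl K)) : Equiv.Perm (LT (RingEquiv.refl K))) (fu ⟨v, hv⟩) : Lm C6 K) = _
        rw [hgv, hfuv]
      rw [← c1, ← c2]
      exact b.symm
    obtain ⟨t', y, g', hg', hgg⟩ := hJCX K h2 g hg hgU
    have hg'GS : g' ∈ GS (RingEquiv.refl K) := (g4 eta y g' JXT_eta hg').2
    obtain ⟨f1, hf1, hf1t⟩ := k1 t' (hτ1 t')
    obtain ⟨f2, hf2, hf2v⟩ := G1 g' hg'GS
    have hInH2 : InH 1 eta f2 := ⟨y, g', hg', fun v => by rw [hf2v v]; rfl⟩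
    have hprod : ((x f : GF (RingEquiv.refl K)) : Equiv.Perm (LT (RingEquiv.refl K))) = f1 * f2 := by
      refine Equiv.ext fun v => Subtype.ext ?_
      rw [hgv v, hgg v v.2]
      change _ = ((f1 (f2 v) : LT (RingEquiv.refl K)) : Lm C6 K)
      rw [hf1t (f2 v), hf2v v]
    obtain ⟨q1, q2, q3⟩ := hJQF K h2
    obtain ⟨h, hh, γ, hγ, hiff⟩ := hSw _ hE
    have hInγ := (hiff f).1 ⟨t, hτ1 t, hft⟩
    have e1 := q2 h hh γ hγ _ hInγ vm
    have e2 := q3 t' f1 f2 hf1t hInH2 vm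
    rw [← hprod] at e2
    rw [e1] at e2
    have e3 : fm C6 (E C6 th) (vm : Lm C6 K) = 1 := by
      change fm C6 (E C6 th) (E C6 (-th) : Lm C6 K) = 1
      rw [fm_E_E C6 hLth.1 hLm.1, if_pos rfl]
    rw [e3, one_pow, mul_one] at e2
    have ht' : t' = 0 := pow_eq_zero_iff (two_ne_zero) |>.1 e2.symm
    have hf11 : f1 = 1 := by
      refine Equiv.ext fun v => Subtype.ext ?_
      rw [hf1t v, ht']
      unfold xe
      simp
    rw [hprod, hf11, one_mul]
    exact hInH2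
  -- Claim B
  intro f
  refine ⟨claimA f, fun hf => ?_⟩
  choose F hF hFt using fun t => k1 t (hτ1 t)
  choose H hH gH hgH hgS hHv using j1
  let φ : K → GF (RingEquiv.refl K) := fun t => x ⟨F t, hF t⟩
  let ψ : K → GF (RingEquiv.refl K) := fun y => ⟨H y, hH y⟩
  have hφinj : Function.Injective φ := by
    intro s t hst
    have a : (⟨F s, hF s⟩ : GF (RingEquiv.refl K)) = ⟨F t, hF t⟩ := x.injective hst
    have b : F s = F t := congrArg Subtype.val a
    have c := hFt s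
    rw [b] at c
    exact k4 s t _ c (hFt t)
  have hψ : ∀ f' : GF (RingEquiv.refl K), InH 1 eta (f' : Equiv.Perm (LT (RingEquiv.refl K))) → f' ∈ Set.range ψ := by
    rintro f' ⟨t, g, hg, hgv⟩
    refine ⟨t, ?_⟩
    refine hext _ _ fun v => ?_
    rw [hgv v]
    change ((H t v : LT (RingEquiv.refl K)) : Lm C6 K) = _
    rw [hHv t v, JXT_IsS (hgS t) hg]
  have hsub : Set.range φ ⊆ Set.range ψ := by
    rintro _ ⟨t, rfl⟩
    exact hψ _ (claimA _ ⟨t, hτ1 t, hFt t⟩)
  have hcard : (Set.range ψ).ncard ≤ (Set.range φ).ncard := by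
    rw [← Set.image_univ, ← Set.image_univ, Set.ncard_image_of_injective _ hφinj]
    exact Set.ncard_image_le (Set.toFinite _)
  have heq := Set.eq_of_subset_of_ncard_le hsub hcard ((Set.finite_range ψ))
  have hmem := hψ _ hf
  rw [← heq] at hmem
  obtain ⟨t, ht⟩ := hmem
  have e : (⟨F t, hF t⟩ : GF (RingEquiv.refl K)) = f := x.injective ht
  rw [← e]
  exact ⟨t, hτ1 t, hFt t⟩

end Pool.Agent.EXT
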